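import Pool.Agent.Lib.MP_876e19_co.Toggle

/-!
# Uniform path systems: toggling all edges between two levels at one root (the circle lemma)
-/

set_option autoImplicit false

namespace Pool.Agent.UPS2

open Finset Pool.Agent.UPS

variable {V : Type*}

/-- swapping the two paths along one edge, at one root -/
lemma one_toggle [Fintype V] [DecidableEq V] {G : SimpleGraph V} (x : V)
    (p : ∀ u : V, G.Walk x u) (hp : ∀ u, x ≠ u → (p u).IsPath) {v w : V} (hvw : G.Adj v w)
    (hxv : x ≠ v) (hxw : x ≠ w) (h1 : v ∉ (p w).support) (h2 : w ∉ (p v).support) :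
    ∃ q : ∀ u : V, G.Walk x u, (∀ u, x ≠ u → (q u).IsPath) ∧
      (∀ u, u ≠ v → u ≠ w → q u = p u) ∧
      (∀ z, z ∈ (q v).support ↔ z ∈ (p w).support ∨ z = v) ∧
      (∀ z, z ∈ (q w).support ↔ z ∈ (p v).support ∨ z = w) ∧
      ∀ z, (univ.filter fun u => x ≠ u ∧ z ∈ (q u).support).card =
        (univ.filter fun u => x ≠ u ∧ z ∈ (p u).support).card +
          (if z = v ∨ z = w then 1 else 0) := by
  classical
  let q : ∀ u : V, G.Walk x u := Function.update (Function.update p v ((p w).concat hvw.symm)) w
    ((p v).concat hvw)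
  have hqw : q w = (p v).concat hvw := Function.update_self ..
  have hqv : q v = (p w).concat hvw.symm := by
    rw [show q v = Function.update p v ((p w).concat hvw.symm) v from
      Function.update_of_ne hvw.ne _ _, Function.update_self]
  have hqu : ∀ u, u ≠ v → u ≠ w → q u = p u := by
    intro u hv hw
    rw [show q u = Function.update p v ((p w).concat hvw.symm) u from
      Function.update_of_ne hw _ _, Function.update_of_ne hv]
  have hsv : ∀ z, z ∈ (q v).support ↔ z ∈ (p w).support ∨ z = v := by
    intro z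
    rw [hqv, SimpleGraph.Walk.support_concat, List.mem_append, List.mem_singleton]
  have hsw : ∀ z, z ∈ (q w).support ↔ z ∈ (p v).support ∨ z = w := by
    intro z
    rw [hqw, SimpleGraph.Walk.support_concat, List.mem_append, List.mem_singleton]
  refine ⟨q, fun u hu => ?_, hqu, hsv, hsw, fun z => ?_⟩
  · by_cases hw : u = w
    · subst hw; rw [hqw]; exact (hp v hxv).concat h2 hvw
    · by_cases hv : u = v
      · subst hv; rw [hqv]; exact (hp w hxw).concat h1 hvw.symm
      · rw [hqu u hv hw]; exact hp u hu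
  · rw [card_filter, card_filter, ← add_sum_erase univ _ (mem_univ v),
      ← add_sum_erase univ (fun u => if x ≠ u ∧ z ∈ (p u).support then 1 else 0) (mem_univ v),
      ← add_sum_erase (univ.erase v) _ (mem_erase.2 ⟨hvw.ne.symm, mem_univ w⟩),
      ← add_sum_erase (univ.erase v) (fun u => if x ≠ u ∧ z ∈ (p u).support then 1 else 0)
        (mem_erase.2 ⟨hvw.ne.symm, mem_univ w⟩)]
    have h3 : ∑ u ∈ (univ.erase v).erase w, (if x ≠ u ∧ z ∈ (q u).support then 1 else 0) =
        ∑ u ∈ (univ.erase v).erase w, (if x ≠ u ∧ z ∈ (p u).support then 1 else 0) := by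
      refine sum_congr rfl fun u hu => ?_
      rw [mem_erase, mem_erase] at hu
      rw [hqu u hu.2.1 hu.1]
    rw [h3]
    have h4 : (if x ≠ v ∧ z ∈ (q v).support then 1 else 0) =
        (if x ≠ w ∧ z ∈ (p w).support then 1 else 0) + (if z = v then 1 else 0) := by
      by_cases hz : z = v
      · subst hz; simp [hsv, hxv, h1]
      · simp [hsv, hxv, hxw, hz]
    have h5 : (if x ≠ w ∧ z ∈ (q w).support then 1 else 0) =
        (if x ≠ v ∧ z ∈ (p v).support then 1 else 0) + (if z = w then 1 else 0) := by
      by_cases hz : z = w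
      · subst hz; simp [hsw, hxw, h2]
      · simp [hsw, hxv, hxw, hz]
    rw [h4, h5]
    have h6 : (if z = v ∨ z = w then 1 else 0) = (if z = v then 1 else 0) +
        (if z = w then 1 else 0) := by
      by_cases hz : z = v
      · subst hz; simp [hvw.ne]
      · simp [hz]
    rw [h6]
    ring

namespace CircleSweep

lemma val_succ' {N : ℕ} [NeZero N] (u : ZMod N) (h : u.val + 1 < N) : (u + 1).val = u.val + 1 := by
  have h1 : (1 : ZMod N).val = 1 := by
    have : Fact (1 < N) := ⟨by omega⟩
    exact ZMod.val_one N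
  rw [ZMod.val_add_of_lt (by rw [h1]; exact h), h1]

/-- the invariant of the circle sweep for a visited vertex `z`; `a` and `b` are the static and the
moving coordinate of the token -/
def Ok {N : ℕ} (A B : Finset V) (r X : V → ZMod N) (m T : ℕ) (a b : ZMod N) (z : V) : Prop :=
  (z ∈ A → 1 ≤ (a - r z).val ∧ (a - r z).val ≤ T + m) ∧
    (z ∈ B → 1 ≤ (X z - b).val ∧ (X z - b).val ≤ T)

lemma Ok.step1 {N : ℕ} [NeZero N] {A B : Finset V} {r X : V → ZMod N} {m T : ℕ} {a b : ZMod N}
    {z : V} (h : Ok A B r X m T a b z) (hT : T + m + 1 < N) : Ok A B r X m (T + 1) a (b - 1) z := by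
  refine ⟨fun hz => ?_, fun hz => ?_⟩
  · have := h.1 hz; omega
  · have h1 := h.2 hz
    have h2 : X z - (b - 1) = (X z - b) + 1 := by ring
    rw [h2, val_succ' _ (by omega)]
    omega

lemma Ok.step2 {N : ℕ} [NeZero N] {A B : Finset V} {r X : V → ZMod N} {m T : ℕ} {a b : ZMod N}
    {z : V} (h : Ok A B r X m T a b z) (hT : T + m + 1 < N) : Ok A B r X m (T + 1) (a + 1) b z := by
  refine ⟨fun hz => ?_, fun hz => ?_⟩
  · have h1 := h.1 hz
    have h2 : a + 1 - r z = (a - r z) + 1 := by ring
    rw [h2, val_succ' _ (by omega)]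
    omega
  · have := h.2 hz; omega

/-- the sweep, in terms of positions on a circle of length `N` -/
lemma sweep [Fintype V] [DecidableEq V] {G : SimpleGraph V} (x : V)
    (p : ∀ u : V, G.Walk x u) (hp : ∀ u, x ≠ u → (p u).IsPath)
    {N : ℕ} [NeZero N] (A B : Finset V) (hAB : Disjoint A B) (hxA : x ∉ A) (hxB : x ∉ B)
    (r X : V → ZMod N) (m Te : ℕ) (hTe : Te + m < N) (E : Finset (V × V))
    (hE : ∀ e ∈ E, e.1 ∈ A ∧ e.2 ∈ B ∧ G.Adj e.1 e.2)
    (hEinj : ∀ e ∈ E, ∀ e' ∈ E, (r e.1 - X e.2).val = (r e'.1 - X e'.2).val → e = e')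
    (hA : ∀ v ∈ A, ∀ z ∈ (p v).support, z ≠ v → Ok A B r X m 0 (r v) (r v) z)
    (hB : ∀ v ∈ B, ∀ z ∈ (p v).support, z ≠ v → Ok A B r X m 0 (X v) (X v) z) (T : ℕ)
    (hT : T ≤ Te) :
    ∃ q : ∀ u : V, G.Walk x u, (∀ u, x ≠ u → (q u).IsPath) ∧
      (∀ u, u ∉ A → u ∉ B → q u = p u) ∧
      (∀ v ∈ A, ∀ z ∈ (q v).support, z ≠ v → Ok A B r X m T (r v) (r v - T) z) ∧
      (∀ v ∈ B, ∀ z ∈ (q v).support, z ≠ v → Ok A B r X m T (X v + T) (X v) z) ∧
      ∀ z, (univ.filter fun u => x ≠ u ∧ z ∈ (q u).support).card =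
        (univ.filter fun u => x ≠ u ∧ z ∈ (p u).support).card +
        ((E.filter fun e => (r e.1 - X e.2).val < T).filter fun e => z = e.1 ∨ z = e.2).card := by
  induction T with
  | zero =>
    refine ⟨p, hp, fun _ _ _ => rfl, ?_, ?_, ?_⟩
    · intro v hv z hz hzv
      have := hA v hv z hz hzv
      simpa using this
    · intro v hv z hz hzv
      have := hB v hv z hz hzv
      simpa using this
    · intro z
      simp
  | succ T ih =>
    obtain ⟨q, hq, hqo, hqA, hqB, hqc⟩ := ih (by omega)
    have hN : T + m + 1 < N := by omega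
    have hA1 : ∀ v, r v - ((T + 1 : ℕ) : ZMod N) = (r v - T) - 1 := by
      intro v; push_cast; ring
    have hB1 : ∀ v, X v + ((T + 1 : ℕ) : ZMod N) = (X v + T) + 1 := by
      intro v; push_cast; ring
    by_cases hex : ∃ e ∈ E, (r e.1 - X e.2).val = T
    · obtain ⟨⟨v, w⟩, he, hTe'⟩ := hex
      obtain ⟨hv, hw, hvw⟩ := hE _ he
      dsimp only at hv hw hvw hTe'
      have hvB : v ∉ B := fun h => disjoint_left.1 hAB hv h
      have hwA : w ∉ A := fun h => disjoint_left.1 hAB h hw
      have hrX : r v = X w + T := by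
        have : ((r v - X w).val : ZMod N) = r v - X w := ZMod.natCast_zmod_val _
        rw [hTe'] at this
        rw [this]; ring
      have h1 : v ∉ (q w).support := by
        intro h
        have := (hqB w hw v h hvw.ne).1 hv
        rw [hrX, sub_self, ZMod.val_zero] at this
        omega
      have h2 : w ∉ (q v).support := by
        intro h
        have := (hqA v hv w h hvw.ne.symm).2 hw
        rw [hrX, add_sub_cancel_right, sub_self, ZMod.val_zero] at this
        omega
      have hxv : x ≠ v := fun h => hxA (h ▸ hv)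
      have hxw : x ≠ w := fun h => hxB (h ▸ hw)
      obtain ⟨q', hq', hqu, hqv, hqw, hc⟩ := one_toggle x q hq hvw hxv hxw h1 h2
      have hone : (1 : ZMod N).val = 1 := by
        have : Fact (1 < N) := ⟨by omega⟩
        exact ZMod.val_one N
      refine ⟨q', hq', ?_, ?_, ?_, ?_⟩
      · intro u hu1 hu2
        rw [hqu u (fun h => hu1 (h ▸ hv)) (fun h => hu2 (h ▸ hw)), hqo u hu1 hu2]
      · intro v' hv' z hz hzv
        by_cases hvv : v' = v
        · subst hvv
          rw [hqv] at hz
          by_cases hzw : z = w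
          · subst hzw
            refine ⟨fun h => absurd h hwA, fun _ => ?_⟩
            have : X z - (r v' - ((T + 1 : ℕ) : ZMod N)) = 1 := by
              rw [hrX]; push_cast; ring
            rw [this, hone]
            omega
          · rcases hz with hz | hz
            · have h3 := hqB w hw z hz hzw
              rw [hA1, hrX, add_sub_cancel_right]
              exact h3.step1 hN
            · exact absurd hz hzv
        · have hne : v' ≠ w := fun h => hwA (h ▸ hv')
          rw [hqu v' hvv hne] at hz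
          rw [hA1]
          exact (hqA v' hv' z hz hzv).step1 hN
      · intro w' hw' z hz hzw
        by_cases hww : w' = w
        · subst hww
          rw [hqw] at hz
          by_cases hzv : z = v
          · subst hzv
            refine ⟨fun _ => ?_, fun h => absurd h hvB⟩
            have : X w' + ((T + 1 : ℕ) : ZMod N) - r z = 1 := by
              rw [hrX]; push_cast; ring
            rw [this, hone]
            omega
          · rcases hz with hz | hz
            · have h3 := hqA v hv z hz hzv
              rw [hB1]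
              rw [hrX, add_sub_cancel_right] at h3
              exact h3.step2 hN
            · exact absurd hz hzw
        · have hne : w' ≠ v := fun h => hvB (h ▸ hw')
          rw [hqu w' hne hww] at hz
          rw [hB1]
          exact (hqB w' hw' z hz hzw).step2 hN
      · intro z
        rw [hc z, hqc z, add_assoc]
        congr 1
        have h4 : E.filter (fun e => (r e.1 - X e.2).val < T + 1) =
            insert (v, w) (E.filter fun e => (r e.1 - X e.2).val < T) := by
          ext e
          rw [mem_insert, mem_filter, mem_filter]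
          constructor
          · rintro ⟨h5, h6⟩
            by_cases h7 : (r e.1 - X e.2).val = T
            · exact Or.inl (hEinj e h5 _ he (by rw [h7, hTe']))
            · exact Or.inr ⟨h5, by omega⟩
          · rintro (h5 | ⟨h5, h6⟩)
            · subst h5; exact ⟨he, by rw [hTe']; omega⟩
            · exact ⟨h5, by omega⟩
        rw [h4, filter_insert]
        by_cases hz : z = v ∨ z = w
        · rw [if_pos hz, if_pos hz, card_insert_of_notMem]
          rw [mem_filter, mem_filter]
          rintro ⟨⟨_, h5⟩, _⟩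
          rw [hTe'] at h5
          omega
        · rw [if_neg hz, if_neg hz, add_zero]
    · refine ⟨q, hq, hqo, ?_, ?_, ?_⟩
      · intro v hv z hz hzv
        rw [hA1]
        exact (hqA v hv z hz hzv).step1 hN
      · intro v hv z hz hzv
        rw [hB1]
        exact (hqB v hv z hz hzv).step2 hN
      · intro z
        rw [hqc z]
        congr 3
        ext e
        rw [mem_filter, mem_filter]
        constructor
        · rintro ⟨h5, h6⟩; exact ⟨h5, by omega⟩
        · rintro ⟨h5, h6⟩
          refine ⟨h5, ?_⟩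
          have : (r e.1 - X e.2).val ≠ T := fun h => hex ⟨e, h5, h⟩
          omega

end CircleSweep

open CircleSweep

/-- **The circle lemma.** One root `x`, two disjoint levels `A` (static) and `B` (moving), a parent
map `par : B → A`; the base paths to `A` meet `A ∪ B` only in their end, those to `B` only in their
end and its parent. Then any set `E` of edges between `A` and `B` without the parent edges can be
toggled, each once: all vertex loads of the root go up by the number of edges of `E` at the
vertex, and only the paths to `A ∪ B` change. -/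
theorem circle_toggle [Fintype V] [DecidableEq V] {G : SimpleGraph V} (x : V)
    (p : ∀ u : V, G.Walk x u) (hp : ∀ u, x ≠ u → (p u).IsPath)
    (A B : Finset V) (hAB : Disjoint A B) (hxA : x ∉ A) (hxB : x ∉ B) (par : V → V)
    (hpar : ∀ w ∈ B, par w ∈ A)
    (hA : ∀ v ∈ A, ∀ z ∈ (p v).support, z ∈ A ∨ z ∈ B → z = v)
    (hB : ∀ w ∈ B, ∀ z ∈ (p w).support, z ∈ A ∨ z ∈ B → z = w ∨ z = par w)
    (E : Finset (V × V))
    (hE : ∀ e ∈ E, e.1 ∈ A ∧ e.2 ∈ B ∧ G.Adj e.1 e.2 ∧ e.1 ≠ par e.2) :
    ∃ q : ∀ u : V, G.Walk x u, (∀ u, x ≠ u → (q u).IsPath) ∧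
      (∀ u, u ∉ A → u ∉ B → q u = p u) ∧
      ∀ z, (univ.filter fun u => x ≠ u ∧ z ∈ (q u).support).card =
        (univ.filter fun u => x ≠ u ∧ z ∈ (p u).support).card +
        (E.filter fun e => z = e.1 ∨ z = e.2).card := by
  classical
  by_cases hAe : A = ∅
  · have hEe : E = ∅ := by
      rw [eq_empty_iff_forall_notMem]
      intro e he
      have := (hE e he).1
      rw [hAe] at this
      exact notMem_empty _ this
    exact ⟨p, hp, fun _ _ _ => rfl, fun z => by simp [hEe]⟩
  have hapos : 0 < A.card := card_pos.2 (nonempty_iff_ne_empty.2 hAe)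
  obtain ⟨iA, hiA1, hiA2⟩ : ∃ i : V → ℕ, (∀ v ∈ A, i v < A.card) ∧
      ∀ v ∈ A, ∀ v' ∈ A, i v = i v' → v = v' := by
    refine ⟨fun v => if h : v ∈ A then (A.equivFin ⟨v, h⟩ : ℕ) else 0, ?_, ?_⟩
    · intro v hv
      simp only [hv, dif_pos]
      exact Fin.is_lt _
    · intro v hv v' hv' h
      simp only [hv, hv', dif_pos] at h
      have := A.equivFin.injective (Fin.ext h)
      exact congrArg Subtype.val this
  obtain ⟨jB, hjB1, hjB2, hjB3⟩ : ∃ i : V → ℕ, (∀ v ∈ B, 1 ≤ i v) ∧ (∀ v ∈ B, i v ≤ B.card) ∧
      ∀ v ∈ B, ∀ v' ∈ B, i v = i v' → v = v' := by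
    refine ⟨fun v => if h : v ∈ B then (B.equivFin ⟨v, h⟩ : ℕ) + 1 else 0, ?_, ?_, ?_⟩
    · intro v hv
      simp only [hv, dif_pos]
      omega
    · intro v hv
      simp only [hv, dif_pos]
      have := (B.equivFin ⟨v, hv⟩).is_lt
      omega
    · intro v hv v' hv' h
      simp only [hv, hv', dif_pos] at h
      have := B.equivFin.injective (Fin.ext (Nat.succ_injective h))
      exact congrArg Subtype.val this
  set a := A.card with ha
  set m := B.card with hm
  set N := a * (m + 1) with hN
  have hNpos : 0 < N := Nat.mul_pos hapos (Nat.succ_pos _)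
  have hNm : m + 1 ≤ N := Nat.le_mul_of_pos_left _ hapos
  have : NeZero N := ⟨hNpos.ne'⟩
  let r : V → ZMod N := fun v => (((m + 1) * iA v : ℕ) : ZMod N)
  let X : V → ZMod N := fun w => (((m + 1) * iA (par w) + jB w : ℕ) : ZMod N)
  have htime : ∀ v ∈ A, ∀ w ∈ B, v ≠ par w → ∃ t c : ℕ, (r v - X w).val = t ∧
      t + jB w = (m + 1) * c ∧ c + 1 ≤ a := by
    intro v hv w hw hvp
    have h1 := hiA1 v hv
    have h2 := hiA1 _ (hpar w hw)
    have h3 : iA v ≠ iA (par w) := fun h => hvp (hiA2 v hv _ (hpar w hw) h)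
    have h4 := hjB1 w hw
    have h5 := hjB2 w hw
    obtain ⟨c, hc1, hc2, hc3⟩ : ∃ c : ℕ, 1 ≤ c ∧ c + 1 ≤ a ∧
        (iA v = iA (par w) + c ∨ iA v + a = iA (par w) + c) := by
      rcases lt_or_gt_of_ne h3 with h | h
      · exact ⟨iA v + a - iA (par w), by omega, by omega, by omega⟩
      · exact ⟨iA v - iA (par w), by omega, by omega, by omega⟩
    have h6 : (m + 1) * c ≤ (m + 1) * (a - 1) := Nat.mul_le_mul_left _ (by omega)
    have h7 : (m + 1) * 1 ≤ (m + 1) * c := Nat.mul_le_mul_left _ hc1
    have h8 : (m + 1) * (a - 1) + (m + 1) = N := by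
      rw [hN, mul_comm a, ← Nat.mul_succ]
      congr 1
      omega
    refine ⟨(m + 1) * c - jB w, c, ?_, by omega, hc2⟩
    have h9 : r v - X w = (((m + 1) * c - jB w : ℕ) : ZMod N) := by
      have h10 : (((m + 1) * a : ℕ) : ZMod N) = 0 := by
        rw [mul_comm, ← hN]; exact ZMod.natCast_self N
      rw [sub_eq_iff_eq_add]
      change (((m + 1) * iA v : ℕ) : ZMod N) =
        (((m + 1) * c - jB w : ℕ) : ZMod N) + (((m + 1) * iA (par w) + jB w : ℕ) : ZMod N)
      rw [← Nat.cast_add]
      have h11 : (m + 1) * c - jB w + ((m + 1) * iA (par w) + jB w) =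
          (m + 1) * (iA (par w) + c) := by
        rw [mul_add]; omega
      rw [h11]
      rcases hc3 with h | h
      · rw [← h]
      · rw [← h, mul_add, Nat.cast_add, h10, add_zero]
    rw [h9, ZMod.val_natCast, Nat.mod_eq_of_lt (by omega)]
  have hTe : a * (m + 1) - (m + 1) + m < N := by omega
  obtain ⟨q, hq1, hq2, _, _, hq5⟩ := sweep x p hp A B hAB hxA hxB r X m (a * (m + 1) - (m + 1)) hTe E
    (fun e he => ⟨(hE e he).1, (hE e he).2.1, (hE e he).2.2.1⟩)
    (by
      intro e he e' he' h
      obtain ⟨h1, h2, _, h3⟩ := hE e he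
      obtain ⟨h1', h2', _, h3'⟩ := hE e' he'
      obtain ⟨t, c, ht, htc, _⟩ := htime _ h1 _ h2 h3
      obtain ⟨t', c', ht', htc', _⟩ := htime _ h1' _ h2' h3'
      have htt : t = t' := by rw [← ht, ← ht', h]
      have hj1 := hjB1 _ h2
      have hj2 := hjB2 _ h2
      have hj1' := hjB1 _ h2'
      have hj2' := hjB2 _ h2'
      have hjj : jB e.2 = jB e'.2 := by
        rcases lt_trichotomy c c' with hc | hc | hc
        · have : (m + 1) * (c + 1) ≤ (m + 1) * c' := Nat.mul_le_mul_left _ hc
          rw [mul_add] at this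
          omega
        · subst hc; omega
        · have : (m + 1) * (c' + 1) ≤ (m + 1) * c := Nat.mul_le_mul_left _ hc
          rw [mul_add] at this
          omega
      have hw := hjB3 _ h2 _ h2' hjj
      have hv : r e.1 = r e'.1 := by
        have h5 := ZMod.val_injective N h
        rw [← hw] at h5
        exact sub_left_injective h5
      have hv' : e.1 = e'.1 := by
        apply hiA2 _ h1 _ h1'
        have h6 : (m + 1) * iA e.1 < N := by
          rw [hN, mul_comm]
          exact Nat.mul_lt_mul_of_pos_right (hiA1 _ h1) (Nat.succ_pos _)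
        have h7 : (m + 1) * iA e'.1 < N := by
          rw [hN, mul_comm]
          exact Nat.mul_lt_mul_of_pos_right (hiA1 _ h1') (Nat.succ_pos _)
        have h8 := congrArg ZMod.val hv
        change (((m + 1) * iA e.1 : ℕ) : ZMod N).val = (((m + 1) * iA e'.1 : ℕ) : ZMod N).val at h8
        rw [ZMod.val_natCast, ZMod.val_natCast, Nat.mod_eq_of_lt h6, Nat.mod_eq_of_lt h7] at h8
        exact Nat.eq_of_mul_eq_mul_left (Nat.succ_pos _) h8
      exact Prod.ext hv' hw)
    (by
      intro v hv z hz hzv
      exact ⟨fun h => absurd (hA v hv z hz (Or.inl h)) hzv,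
        fun h => absurd (hA v hv z hz (Or.inr h)) hzv⟩)
    (by
      intro w hw z hz hzw
      refine ⟨fun h => ?_, fun h => ?_⟩
      · have h1 := (hB w hw z hz (Or.inl h)).resolve_left hzw
        have h2 : X w - r z = ((jB w : ℕ) : ZMod N) := by
          rw [h1]
          change (((m + 1) * iA (par w) + jB w : ℕ) : ZMod N) -
            (((m + 1) * iA (par w) : ℕ) : ZMod N) = _
          rw [Nat.cast_add, add_sub_cancel_left]
        have h3 := hjB1 w hw
        have h4 := hjB2 w hw
        rw [h2, ZMod.val_natCast, Nat.mod_eq_of_lt (by omega)]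
        omega
      · have h1 := (hB w hw z hz (Or.inr h)).resolve_left hzw
        exact absurd h (disjoint_left.1 hAB (h1 ▸ hpar w hw)))
    (a * (m + 1) - (m + 1)) le_rfl
  refine ⟨q, hq1, hq2, fun z => ?_⟩
  rw [hq5 z]
  congr 3
  ext e
  rw [mem_filter]
  constructor
  · exact fun h => h.1
  · intro he
    refine ⟨he, ?_⟩
    obtain ⟨h1, h2, _, h3⟩ := hE e he
    obtain ⟨t, c, ht, htc, hca⟩ := htime _ h1 _ h2 h3
    rw [ht]
    have hj1 := hjB1 _ h2
    have h6 : (m + 1) * c ≤ (m + 1) * (a - 1) := Nat.mul_le_mul_left _ (by omega)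
    have h8 : (m + 1) * (a - 1) + (m + 1) = a * (m + 1) := by
      rw [mul_comm a, ← Nat.mul_succ]
      congr 1
      omega
    omega

end Pool.Agent.UPS2
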