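import Pool.Agent.Lib.MP_876e19_co2.Circle

/-!
# Uniform path systems: vertex-transitive graphs of diameter at most three
-/

set_option autoImplicit false

namespace Pool.Agent.UPS2

open Finset Pool.Agent.UPS

/-- Invariant sets of options admit a choice which uses every option equally often. -/
theorem balanced_choice {S V : Type*} [Fintype S] [Fintype V] [DecidableEq V]
    (O : S → Finset V) (hne : ∀ s, (O s).Nonempty)
    (hinv : ∀ z z' : V, ∃ (e : S ≃ S) (φ : V ≃ V), φ z = z' ∧
      ∀ s u, φ u ∈ O (e s) ↔ u ∈ O s)
    (k : ℕ) (hk : Fintype.card S = k * Fintype.card V) :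
    ∃ f : S → V, (∀ s, f s ∈ O s) ∧ ∀ z, (univ.filter (fun s => f s = z)).card = k := by
  classical
  by_cases hV : IsEmpty V
  · have hS : IsEmpty S := by
      rw [← Fintype.card_eq_zero_iff, hk, Fintype.card_eq_zero_iff.2 hV, mul_zero]
    exact ⟨fun s => (hS.false s).elim, fun s => (hS.false s).elim, fun z => (hV.false z).elim⟩
  rw [not_isEmpty_iff] at hV
  obtain ⟨z0⟩ := hV
  -- the weight of a vertex
  let W : V → ℚ := fun z => ∑ s, if z ∈ O s then ((O s).card : ℚ)⁻¹ else 0
  have hcard : ∀ z z' : V, W z' = W z := by
    intro z z'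
    obtain ⟨e, φ, h1, h2⟩ := hinv z z'
    have h3 : ∀ s, (O (e s)).card = (O s).card := by
      intro s
      have : O (e s) = (O s).map φ.toEmbedding := by
        ext u
        rw [mem_map]
        constructor
        · intro hu
          refine ⟨φ.symm u, ?_, by simp⟩
          rw [← h2, Equiv.apply_symm_apply]; exact hu
        · rintro ⟨v, hv, rfl⟩
          exact (h2 s v).2 hv
      rw [this, card_map]
    change (∑ s, if z' ∈ O s then ((O s).card : ℚ)⁻¹ else 0) = _
    rw [← Equiv.sum_comp e]
    refine sum_congr rfl fun s _ => ?_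
    rw [← h1, h3]
    by_cases h4 : z ∈ O s
    · rw [if_pos h4, if_pos ((h2 s z).2 h4)]
    · rw [if_neg h4, if_neg (fun h => h4 ((h2 s z).1 h))]
  have htot : ∑ z, W z = Fintype.card S := by
    rw [sum_comm]
    have : ∀ s : S, ∑ z, (if z ∈ O s then ((O s).card : ℚ)⁻¹ else 0) = 1 := by
      intro s
      rw [← sum_filter, sum_const, nsmul_eq_mul]
      have : (univ.filter fun z => z ∈ O s) = O s := by ext; simp
      rw [this, mul_inv_cancel₀]
      exact_mod_cast (card_pos.2 (hne s)).ne'
    rw [sum_congr rfl fun s _ => this s]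
    simp
  have hW : ∀ z, W z = k := by
    intro z
    have h1 : ∑ z', W z' = Fintype.card V * W z := by
      rw [sum_congr rfl fun z' _ => hcard z z', sum_const, nsmul_eq_mul, card_univ]
    rw [htot, hk] at h1
    push_cast at h1
    have h2 : (Fintype.card V : ℚ) ≠ 0 := by
      exact_mod_cast (Fintype.card_pos_iff.2 ⟨z0⟩).ne'
    have h3 : (Fintype.card V : ℚ) * k = Fintype.card V * W z := by rw [← h1]; ring
    exact (mul_left_cancel₀ h2 h3).symm
  -- Hall
  have hall : ∀ A : Finset S, A.card ≤
      (A.biUnion fun s => O s ×ˢ (univ : Finset (Fin k))).card := by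
    intro A
    have h1 : (A.biUnion fun s => O s ×ˢ (univ : Finset (Fin k))) =
        (A.biUnion O) ×ˢ (univ : Finset (Fin k)) := by
      ext ⟨u, i⟩
      simp
    rw [h1, card_product, card_univ, Fintype.card_fin]
    have h2 : (A.card : ℚ) ≤ (A.biUnion O).card * k := by
      have h3 : (A.card : ℚ) = ∑ s ∈ A, ∑ z ∈ A.biUnion O,
          (if z ∈ O s then ((O s).card : ℚ)⁻¹ else 0) := by
        have : ∀ s ∈ A, ∑ z ∈ A.biUnion O,
            (if z ∈ O s then ((O s).card : ℚ)⁻¹ else 0) = 1 := by
          intro s hs
          rw [← sum_filter, sum_const, nsmul_eq_mul]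
          have : ((A.biUnion O).filter fun z => z ∈ O s) = O s := by
            ext z
            rw [mem_filter, mem_biUnion]
            exact ⟨fun h => h.2, fun h => ⟨⟨s, hs, h⟩, h⟩⟩
          rw [this, mul_inv_cancel₀]
          exact_mod_cast (card_pos.2 (hne s)).ne'
        rw [sum_congr rfl this]
        simp
      rw [h3, sum_comm, ← nsmul_eq_mul, ← sum_const]
      refine sum_le_sum fun z _ => ?_
      rw [← hW z]
      refine sum_le_sum_of_subset_of_nonneg (subset_univ _) fun s _ _ => ?_
      split_ifs
      · positivity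
      · exact le_rfl
    exact_mod_cast h2
  obtain ⟨g, hg1, hg2⟩ := (Finset.all_card_le_biUnion_card_iff_exists_injective _).1 hall
  refine ⟨fun s => (g s).1, fun s => (mem_product.1 (hg2 s)).1, ?_⟩
  have hle : ∀ z, (univ.filter (fun s => (g s).1 = z)).card ≤ k := by
    intro z
    calc (univ.filter (fun s => (g s).1 = z)).card ≤ (univ : Finset (Fin k)).card := by
          apply card_le_card_of_injOn (fun s => (g s).2) (fun _ _ => mem_coe.2 (mem_univ _))
          intro s hs s' hs' h
          rw [mem_coe, mem_filter] at hs hs'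
          exact hg1 (Prod.ext (hs.2.trans hs'.2.symm) h)
      _ = k := by simp
  have hsum : ∑ z, (univ.filter (fun s => (g s).1 = z)).card = ∑ _z : V, k := by
    rw [← card_eq_sum_card_fiberwise (fun s _ => mem_coe.2 (mem_univ _)), card_univ, hk, sum_const,
      card_univ, smul_eq_mul, mul_comm]
  have := (sum_eq_sum_iff_of_le fun z _ => hle z).1 hsum
  exact fun z => this z (mem_univ z)

variable {V : Type*}

lemma dist_iso {G : SimpleGraph V} (φ : G ≃g G) (x y : V) :
    G.dist (φ x) (φ y) = G.dist x y := by
  have key : ∀ (ψ : G ≃g G) (a b : V), G.Reachable a b → G.dist (ψ a) (ψ b) ≤ G.dist a b := by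
    intro ψ a b hab
    obtain ⟨p, hp⟩ := hab.exists_walk_length_eq_dist
    rw [← hp, ← SimpleGraph.Walk.length_map ψ.toHom p]
    exact SimpleGraph.dist_le _
  by_cases hr : G.Reachable x y
  · apply le_antisymm (key φ x y hr)
    have h1 : G.Reachable (φ x) (φ y) := by
      obtain ⟨p⟩ := hr
      exact ⟨p.map φ.toHom⟩
    have := key φ.symm _ _ h1
    simpa using this
  · have h1 : ¬ G.Reachable (φ x) (φ y) := by
      rintro ⟨p⟩
      apply hr
      have := (p.map φ.symm.toHom).reachable
      simpa using this
    rw [SimpleGraph.dist_eq_zero_of_not_reachable hr,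
      SimpleGraph.dist_eq_zero_of_not_reachable h1]

/-- the first step of a geodesic -/
lemma exists_first {G : SimpleGraph V} (hG : G.Connected) {x y : V} {k : ℕ}
    (h : G.dist x y = k + 1) : ∃ u, G.Adj x u ∧ G.dist u y = k := by
  obtain ⟨p, hp⟩ := hG.exists_walk_length_eq_dist x y
  cases p with
  | nil => rw [SimpleGraph.dist_self] at h; omega
  | @cons _ u _ hxu p =>
    refine ⟨u, hxu, ?_⟩
    rw [SimpleGraph.Walk.length_cons, h] at hp
    have h1 := SimpleGraph.dist_le p
    have h2 := hG.dist_triangle (u := x) (v := u) (w := y)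
    rw [SimpleGraph.dist_eq_one_iff_adj.2 hxu] at h2
    omega

/-- **Diameter three.** A connected vertex-transitive graph with all distances at most three has a
uniform path system. -/
theorem diam_three [Fintype V] {G : SimpleGraph V} (hG : G.Connected) (hT : VT G)
    (hD : ∀ x y, G.dist x y ≤ 3) : HasUPS G := by
  classical
  -- first vertices
  let S := {s : V × V // 2 ≤ G.dist s.1 s.2}
  let O : S → Finset V := fun s => univ.filter fun u =>
    G.Adj s.1.1 u ∧ G.dist u s.1.2 + 1 = G.dist s.1.1 s.1.2
  have hconst : ∀ g : V → V → ℕ, (∀ (φ : G ≃g G) x y, g (φ x) (φ y) = g x y) →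
      ∀ y y', ∑ x, g x y' = ∑ x, g x y := by
    intro g hg y y'
    obtain ⟨φ, hφ⟩ := hT y y'
    rw [← Equiv.sum_comp φ.toEquiv]
    refine sum_congr rfl fun x _ => ?_
    rw [← hφ]
    exact hg φ x y
  obtain ⟨f0, hf01, k, hf02⟩ : ∃ f : S → V, (∀ s, f s ∈ O s) ∧ ∃ k, ∀ z,
      (univ.filter (fun s => f s = z)).card = k := by
    by_cases hV : IsEmpty V
    · exact ⟨fun s => s.1.1, fun s => (hV.false s.1.1).elim, 0, fun z => (hV.false z).elim⟩
    rw [not_isEmpty_iff] at hV
    obtain ⟨z0⟩ := hV
    obtain ⟨f, h1, h2⟩ := balanced_choice O (fun s => by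
        obtain ⟨u, hu1, hu2⟩ := exists_first hG (x := s.1.1) (y := s.1.2)
          (k := G.dist s.1.1 s.1.2 - 1) (by have := s.2; omega)
        refine ⟨u, mem_filter.2 ⟨mem_univ _, hu1, ?_⟩⟩
        have := s.2
        omega) (fun z z' => by
        obtain ⟨φ, hφ⟩ := hT z z'
        refine ⟨(φ.toEquiv.prodCongr φ.toEquiv).subtypeEquiv (fun s => ?_), φ.toEquiv, hφ, ?_⟩
        · change 2 ≤ G.dist s.1 s.2 ↔ 2 ≤ G.dist (φ s.1) (φ s.2)
          rw [dist_iso]
        · rintro ⟨⟨a, b⟩, hab⟩ u
          rw [mem_filter, mem_filter]
          change _ ∧ G.Adj (φ a) (φ u) ∧ G.dist (φ u) (φ b) + 1 = G.dist (φ a) (φ b) ↔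
            _ ∧ G.Adj a u ∧ G.dist u b + 1 = G.dist a b
          rw [dist_iso, dist_iso, φ.map_adj_iff]
          simp)
        (univ.filter fun x => 2 ≤ G.dist x z0).card (by
          rw [Fintype.card_subtype, card_filter, Fintype.sum_prod_type_right]
          have h3 : ∀ y, ∑ x, (if 2 ≤ G.dist x y then 1 else 0) =
              (univ.filter fun x => 2 ≤ G.dist x z0).card := by
            intro y
            rw [card_filter]
            exact hconst (fun x y => if 2 ≤ G.dist x y then 1 else 0)
              (fun φ x y => by rw [dist_iso]) z0 y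
          rw [sum_congr rfl fun y _ => h3 y, sum_const, card_univ, smul_eq_mul, mul_comm])
    exact ⟨f, h1, _, h2⟩
  let F : V → V → V := fun x y => if h : 2 ≤ G.dist x y then f0 ⟨(x, y), h⟩ else y
  have hF : ∀ x y, 2 ≤ G.dist x y → G.Adj x (F x y) ∧ G.dist (F x y) y + 1 = G.dist x y := by
    intro x y h
    have h1 := hf01 ⟨(x, y), h⟩
    have h2 : F x y = f0 ⟨(x, y), h⟩ := dif_pos h
    rw [h2]
    exact (mem_filter.1 h1).2
  have hFk : ∀ z, ∑ x, (univ.filter fun y => 2 ≤ G.dist x y ∧ F x y = z).card = k := by
    intro z
    rw [← hf02 z]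
    have h1 : ∀ x, (univ.filter fun y => 2 ≤ G.dist x y ∧ F x y = z).card =
        ∑ y, if 2 ≤ G.dist x y ∧ F x y = z then 1 else 0 := fun x => card_filter _ _
    rw [sum_congr rfl fun x _ => h1 x, ← Fintype.sum_prod_type
      (fun p : V × V => if 2 ≤ G.dist p.1 p.2 ∧ F p.1 p.2 = z then 1 else 0), ← card_filter]
    symm
    apply card_bij (fun s _ => s.1)
    · intro s hs
      rw [mem_filter] at hs ⊢
      refine ⟨mem_univ _, s.2, ?_⟩
      rw [← hs.2]
      exact dif_pos s.2
    · intro s _ s' _ h
      exact Subtype.ext h
    · intro b hb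
      rw [mem_filter] at hb
      refine ⟨⟨b, hb.2.1⟩, ?_, rfl⟩
      rw [mem_filter]
      refine ⟨mem_univ _, ?_⟩
      have h5 : F b.1 b.2 = f0 ⟨(b.1, b.2), hb.2.1⟩ := dif_pos hb.2.1
      exact h5.symm.trans hb.2.2
  -- parents in level two
  have hpar0 : ∀ x y, ∃ v, G.dist x y = 3 → G.Adj (F x y) v ∧ G.Adj v y ∧ G.dist x v = 2 := by
    intro x y
    by_cases h : G.dist x y = 3
    · obtain ⟨h1, h2⟩ := hF x y (by omega)
      obtain ⟨v, hv1, hv2⟩ := exists_first hG (x := F x y) (y := y) (k := 1) (by omega)
      refine ⟨v, fun _ => ⟨hv1, SimpleGraph.dist_eq_one_iff_adj.1 hv2, ?_⟩⟩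
      have h3 := hG.dist_triangle (u := x) (v := F x y) (w := v)
      have h4 := hG.dist_triangle (u := x) (v := v) (w := y)
      rw [SimpleGraph.dist_eq_one_iff_adj.2 h1, SimpleGraph.dist_eq_one_iff_adj.2 hv1] at h3
      omega
    · exact ⟨x, fun h' => absurd h' h⟩
  choose par hpar using hpar0
  -- the base paths
  have hbase : ∀ x u, ∃ w : G.Walk x u, (x ≠ u → w.IsPath) ∧
      (G.dist x u = 1 → w.support = [x, u]) ∧
      (G.dist x u = 2 → w.support = [x, F x u, u]) ∧
      (G.dist x u = 3 → w.support = [x, F x u, par x u, u]) := by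
    intro x u
    have h0 := hD x u
    by_cases hxu : x = u
    · subst hxu
      exact ⟨SimpleGraph.Walk.nil, fun h => absurd rfl h, by simp, by simp, by simp⟩
    have hpos : G.dist x u ≠ 0 := by
      rw [(hG.dist_eq_zero_iff).ne]; exact hxu
    obtain h | h | h : G.dist x u = 1 ∨ G.dist x u = 2 ∨ G.dist x u = 3 := by omega
    · refine ⟨SimpleGraph.Walk.cons (SimpleGraph.dist_eq_one_iff_adj.1 h)
        SimpleGraph.Walk.nil, ?_, ?_, ?_, ?_⟩
      · intro _
        rw [SimpleGraph.Walk.isPath_def]
        simp [hxu]
      · intro _; simp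
      · intro h'; omega
      · intro h'; omega
    · obtain ⟨h1, h2⟩ := hF x u (by omega)
      have h3 : G.Adj (F x u) u := SimpleGraph.dist_eq_one_iff_adj.1 (by omega)
      refine ⟨SimpleGraph.Walk.cons h1 (SimpleGraph.Walk.cons h3 SimpleGraph.Walk.nil),
        ?_, ?_, ?_, ?_⟩
      · intro _
        rw [SimpleGraph.Walk.isPath_def]
        simp [hxu, h1.ne, h3.ne]
      · intro h'; omega
      · intro _; simp
      · intro h'; omega
    · obtain ⟨h1, h2⟩ := hF x u (by omega)
      obtain ⟨h3, h4, h5⟩ := hpar x u h
      refine ⟨SimpleGraph.Walk.cons h1 (SimpleGraph.Walk.cons h3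
        (SimpleGraph.Walk.cons h4 SimpleGraph.Walk.nil)), ?_, ?_, ?_, ?_⟩
      · intro _
        rw [SimpleGraph.Walk.isPath_def]
        have h6 : x ≠ par x u := by
          intro h'
          rw [← h', SimpleGraph.dist_self] at h5
          omega
        have h7 : F x u ≠ u := by
          intro h'
          rw [h', SimpleGraph.dist_self] at h2
          omega
        simp [hxu, h1.ne, h3.ne, h4.ne, h6, h7]
      · intro h'; omega
      · intro h'; omega
      · intro _; simp
  choose p hp1 hp2 hp3 hp4 using hbase
  -- toggle the edges between levels two and three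
  let A : V → Finset V := fun x => univ.filter fun v => G.dist x v = 2
  let B : V → Finset V := fun x => univ.filter fun v => G.dist x v = 3
  let E : V → Finset (V × V) := fun x =>
    (A x ×ˢ B x).filter fun e => G.Adj e.1 e.2 ∧ e.1 ≠ par x e.2
  have hA : ∀ x v, v ∈ A x ↔ G.dist x v = 2 := by intro x v; simp [A]
  have hB : ∀ x v, v ∈ B x ↔ G.dist x v = 3 := by intro x v; simp [B]
  have hcirc := fun x => circle_toggle x (p x) (hp1 x) (A x) (B x)
    (by
      rw [disjoint_left]
      intro v h1 h2
      rw [hA] at h1
      rw [hB] at h2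
      omega)
    (by rw [hA, SimpleGraph.dist_self]; omega) (by rw [hB, SimpleGraph.dist_self]; omega) (par x)
    (by
      intro w hw
      rw [hB] at hw
      rw [hA]
      exact (hpar x w hw).2.2)
    (by
      intro v hv z hz hz'
      rw [hA] at hv
      rw [hp3 x v hv] at hz
      rw [hA, hB] at hz'
      have h1 := SimpleGraph.dist_eq_one_iff_adj.2 (hF x v (by omega)).1
      simp only [List.mem_cons, List.not_mem_nil, or_false] at hz
      rcases hz with rfl | rfl | rfl
      · rw [SimpleGraph.dist_self] at hz'; omega
      · omega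
      · rfl)
    (by
      intro v hv z hz hz'
      rw [hB] at hv
      rw [hp4 x v hv] at hz
      rw [hA, hB] at hz'
      have h1 := SimpleGraph.dist_eq_one_iff_adj.2 (hF x v (by omega)).1
      simp only [List.mem_cons, List.not_mem_nil, or_false] at hz
      rcases hz with rfl | rfl | rfl | rfl
      · rw [SimpleGraph.dist_self] at hz'; omega
      · omega
      · exact Or.inr rfl
      · exact Or.inl rfl)
    (E x)
    (by
      intro e he
      obtain ⟨h1, h2, h3⟩ := mem_filter.1 he
      rw [mem_product] at h1
      exact ⟨h1.1, h1.2, h2, h3⟩)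
  choose q hq1 hq2 hq3 using hcirc
  -- the invariant part of the load
  let I : V → V → ℕ := fun x z => if x = z then Fintype.card V - 1 else
    if G.dist x z = 1 then 1 else
    if G.dist x z = 2 then 1 + (univ.filter fun w => G.dist x w = 3 ∧ G.Adj z w).card else
    (univ.filter fun v => G.dist x v = 2 ∧ G.Adj v z).card
  have hI : ∀ (φ : G ≃g G) x z, I (φ x) (φ z) = I x z := by
    intro φ x z
    have h1 : ∀ d : ℕ, (univ.filter fun w => G.dist (φ x) w = d ∧ G.Adj (φ z) w).card =
        (univ.filter fun w => G.dist x w = d ∧ G.Adj z w).card := by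
      intro d
      symm
      apply card_bij (fun w _ => φ w)
      · intro w hw
        rw [mem_filter] at hw ⊢
        rw [dist_iso, φ.map_adj_iff]
        exact ⟨mem_univ _, hw.2⟩
      · intro w _ w' _ h
        exact φ.injective h
      · intro w hw
        rw [mem_filter] at hw
        refine ⟨φ.symm w, ?_, by simp⟩
        rw [mem_filter]
        refine ⟨mem_univ _, ?_, ?_⟩
        · rw [← hw.2.1, ← dist_iso φ]; simp
        · rw [← φ.map_adj_iff]; simpa using hw.2.2
    have h2 : (univ.filter fun v => G.dist (φ x) v = 2 ∧ G.Adj v (φ z)).card =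
        (univ.filter fun v => G.dist x v = 2 ∧ G.Adj v z).card := by
      have := h1 2
      simpa only [G.adj_comm (φ z), G.adj_comm z] using this
    simp only [I, dist_iso, φ.injective.eq_iff, h1 3, h2]
  have hcount : ∀ x z, (univ.filter fun u => x ≠ u ∧ z ∈ (q x u).support).card =
      I x z + (univ.filter fun y => 2 ≤ G.dist x y ∧ F x y = z).card := by
    intro x z
    rw [hq3]
    have hx1 : ∀ u, x ≠ u → z ∈ (p x u).support → z = x ∨ z = u ∨
        (2 ≤ G.dist x u ∧ F x u = z) ∨ (G.dist x u = 3 ∧ par x u = z) := by
      intro u hxu hz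
      have h0 := hD x u
      have hpos : G.dist x u ≠ 0 := by
        rw [(hG.dist_eq_zero_iff).ne]; exact hxu
      obtain h | h | h : G.dist x u = 1 ∨ G.dist x u = 2 ∨ G.dist x u = 3 := by omega
      · rw [hp2 x u h] at hz
        simp only [List.mem_cons, List.not_mem_nil, or_false] at hz
        tauto
      · rw [hp3 x u h] at hz
        simp only [List.mem_cons, List.not_mem_nil, or_false] at hz
        rcases hz with hz | hz | hz
        · exact Or.inl hz
        · exact Or.inr (Or.inr (Or.inl ⟨by omega, hz.symm⟩))
        · exact Or.inr (Or.inl hz)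
      · rw [hp4 x u h] at hz
        simp only [List.mem_cons, List.not_mem_nil, or_false] at hz
        rcases hz with hz | hz | hz | hz
        · exact Or.inl hz
        · exact Or.inr (Or.inr (Or.inl ⟨by omega, hz.symm⟩))
        · exact Or.inr (Or.inr (Or.inr ⟨h, hz.symm⟩))
        · exact Or.inr (Or.inl hz)
    have hx2 : ∀ u, 2 ≤ G.dist x u → F x u ∈ (p x u).support := by
      intro u h
      have h0 := hD x u
      obtain h | h : G.dist x u = 2 ∨ G.dist x u = 3 := by omega
      · rw [hp3 x u h]; simp
      · rw [hp4 x u h]; simp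
    have hx3 : ∀ u, G.dist x u = 3 → par x u ∈ (p x u).support := by
      intro u h
      rw [hp4 x u h]; simp
    have hd1 : ∀ u, 2 ≤ G.dist x u → G.dist x (F x u) = 1 := fun u h =>
      SimpleGraph.dist_eq_one_iff_adj.2 (hF x u h).1
    have hEz : ∀ e ∈ E x, G.dist x e.1 = 2 ∧ G.dist x e.2 = 3 ∧ G.Adj e.1 e.2 ∧
        e.1 ≠ par x e.2 := by
      intro e he
      obtain ⟨h1, h2, h3⟩ := mem_filter.1 he
      rw [mem_product, hA, hB] at h1
      exact ⟨h1.1, h1.2, h2, h3⟩
    by_cases hxz : x = z
    · subst hxz
      have h1 : (univ.filter fun u => x ≠ u ∧ x ∈ (p x u).support) = univ.erase x := by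
        ext u
        simp [eq_comm]
      have h2 : (E x).filter (fun e => x = e.1 ∨ x = e.2) = ∅ := by
        rw [filter_eq_empty_iff]
        rintro e he (h | h)
        · have := (hEz e he).1
          rw [← h, SimpleGraph.dist_self] at this
          omega
        · have := (hEz e he).2.1
          rw [← h, SimpleGraph.dist_self] at this
          omega
      have h3 : (univ.filter fun y => 2 ≤ G.dist x y ∧ F x y = x) = ∅ := by
        rw [filter_eq_empty_iff]
        rintro y _ ⟨h, h'⟩
        have := hd1 y h
        rw [h', SimpleGraph.dist_self] at this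
        omega
      rw [h1, h2, h3, card_erase_of_mem (mem_univ _), card_univ]
      simp [I]
    have h0 := hD x z
    have hpos : G.dist x z ≠ 0 := by
      rw [(hG.dist_eq_zero_iff).ne]; exact hxz
    obtain hz1 | hz2 | hz3 : G.dist x z = 1 ∨ G.dist x z = 2 ∨ G.dist x z = 3 := by omega
    · -- level one
      have h1 : (univ.filter fun u => x ≠ u ∧ z ∈ (p x u).support) =
          insert z (univ.filter fun y => 2 ≤ G.dist x y ∧ F x y = z) := by
        ext u
        rw [mem_insert, mem_filter, mem_filter]
        constructor
        · rintro ⟨_, h2, h3⟩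
          rcases hx1 u h2 h3 with h | h | h | h
          · exact absurd h.symm hxz
          · exact Or.inl h.symm
          · exact Or.inr ⟨mem_univ _, h⟩
          · have := (hpar x u h.1).2.2
            rw [h.2] at this
            omega
        · rintro (rfl | ⟨_, h2, h3⟩)
          · exact ⟨mem_univ _, hxz, SimpleGraph.Walk.end_mem_support _⟩
          · refine ⟨mem_univ _, ?_, h3 ▸ hx2 u h2⟩
            rintro rfl
            rw [SimpleGraph.dist_self] at h2
            omega
      have h2 : (E x).filter (fun e => z = e.1 ∨ z = e.2) = ∅ := by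
        rw [filter_eq_empty_iff]
        rintro e he (h | h)
        · have := (hEz e he).1
          rw [← h] at this
          omega
        · have := (hEz e he).2.1
          rw [← h] at this
          omega
      rw [h1, h2, card_empty, add_zero, card_insert_of_notMem]
      · simp only [I, hxz, hz1, if_true, if_false]
        ring
      · rw [mem_filter]
        rintro ⟨_, h, _⟩
        omega
    · -- level two
      have h1 : (univ.filter fun u => x ≠ u ∧ z ∈ (p x u).support) =
          insert z (univ.filter fun y => G.dist x y = 3 ∧ par x y = z) := by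
        ext u
        rw [mem_insert, mem_filter, mem_filter]
        constructor
        · rintro ⟨_, h2, h3⟩
          rcases hx1 u h2 h3 with h | h | h | h
          · exact absurd h.symm hxz
          · exact Or.inl h.symm
          · have := hd1 u h.1
            rw [h.2] at this
            omega
          · exact Or.inr ⟨mem_univ _, h⟩
        · rintro (rfl | ⟨_, h2, h3⟩)
          · exact ⟨mem_univ _, hxz, SimpleGraph.Walk.end_mem_support _⟩
          · refine ⟨mem_univ _, ?_, h3 ▸ hx3 u h2⟩
            rintro rfl
            rw [SimpleGraph.dist_self] at h2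
            omega
      have h2 : ((E x).filter (fun e => z = e.1 ∨ z = e.2)).card =
          (univ.filter fun w => (G.dist x w = 3 ∧ G.Adj z w) ∧ par x w ≠ z).card := by
        apply card_bij (fun e _ => e.2)
        · intro e he
          rw [mem_filter] at he
          obtain ⟨h3, h4, h5, h6⟩ := hEz e he.1
          rw [mem_filter]
          rcases he.2 with h | h
          · rw [← h] at h5 h6
            exact ⟨mem_univ _, ⟨h4, h5⟩, fun h' => h6 h'.symm⟩
          · rw [← h] at h4; omega
        · intro e he e' he' h
          rw [mem_filter] at he he'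
          have h3 : e.1 = z := by
            rcases he.2 with h' | h'
            · exact h'.symm
            · have := (hEz e he.1).2.1
              rw [← h'] at this
              omega
          have h4 : e'.1 = z := by
            rcases he'.2 with h' | h'
            · exact h'.symm
            · have := (hEz e' he'.1).2.1
              rw [← h'] at this
              omega
          exact Prod.ext (h3.trans h4.symm) h
        · intro w hw
          rw [mem_filter] at hw
          refine ⟨(z, w), ?_, rfl⟩
          rw [mem_filter, mem_filter, mem_product, hA, hB]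
          exact ⟨⟨⟨hz2, hw.2.1.1⟩, hw.2.1.2, fun h' => hw.2.2 h'.symm⟩, Or.inl rfl⟩
      have h3 : (univ.filter fun y => 2 ≤ G.dist x y ∧ F x y = z) = ∅ := by
        rw [filter_eq_empty_iff]
        rintro y _ ⟨h, h'⟩
        have := hd1 y h
        rw [h'] at this
        omega
      have h4 : (univ.filter fun y => G.dist x y = 3 ∧ par x y = z) =
          (univ.filter fun w => (G.dist x w = 3 ∧ G.Adj z w)).filter fun w => par x w = z := by
        ext w
        rw [mem_filter, mem_filter, mem_filter]
        constructor
        · rintro ⟨_, h5, h6⟩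
          exact ⟨⟨mem_univ _, h5, h6 ▸ (hpar x w h5).2.1⟩, h6⟩
        · rintro ⟨⟨_, h5, _⟩, h6⟩
          exact ⟨mem_univ _, h5, h6⟩
      have h5 : (univ.filter fun w => (G.dist x w = 3 ∧ G.Adj z w) ∧ par x w ≠ z) =
          (univ.filter fun w => (G.dist x w = 3 ∧ G.Adj z w)).filter fun w => ¬ par x w = z := by
        rw [filter_filter]
      rw [h1, h2, h3, card_empty, add_zero, card_insert_of_notMem, h4, h5]
      · have h6 := card_filter_add_card_filter_not (s := univ.filter fun w =>
          (G.dist x w = 3 ∧ G.Adj z w)) (fun w => par x w = z)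
        simp only [I, hxz, hz2, if_true, if_false]
        rw [if_neg (by omega)]
        omega
      · rw [mem_filter]
        rintro ⟨_, h, _⟩
        omega
    · -- level three
      have h1 : (univ.filter fun u => x ≠ u ∧ z ∈ (p x u).support) = {z} := by
        ext u
        rw [mem_singleton, mem_filter]
        constructor
        · rintro ⟨_, h2, h3⟩
          rcases hx1 u h2 h3 with h | h | h | h
          · exact absurd h.symm hxz
          · exact h.symm
          · have := hd1 u h.1
            rw [h.2] at this
            omega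
          · have := (hpar x u h.1).2.2
            rw [h.2] at this
            omega
        · rintro rfl
          exact ⟨mem_univ _, hxz, SimpleGraph.Walk.end_mem_support _⟩
      have h2 : ((E x).filter (fun e => z = e.1 ∨ z = e.2)).card =
          ((univ.filter fun v => (G.dist x v = 2 ∧ G.Adj v z)).erase (par x z)).card := by
        apply card_bij (fun e _ => e.1)
        · intro e he
          rw [mem_filter] at he
          obtain ⟨h3, h4, h5, h6⟩ := hEz e he.1
          rw [mem_erase, mem_filter]
          rcases he.2 with h | h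
          · rw [← h] at h3; omega
          · rw [← h] at h5 h6
            exact ⟨h6, mem_univ _, h3, h5⟩
        · intro e he e' he' h
          rw [mem_filter] at he he'
          have h3 : e.2 = z := by
            rcases he.2 with h' | h'
            · have := (hEz e he.1).1
              rw [← h'] at this
              omega
            · exact h'.symm
          have h4 : e'.2 = z := by
            rcases he'.2 with h' | h'
            · have := (hEz e' he'.1).1
              rw [← h'] at this
              omega
            · exact h'.symm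
          exact Prod.ext h (h3.trans h4.symm)
        · intro v hv
          rw [mem_erase, mem_filter] at hv
          refine ⟨(v, z), ?_, rfl⟩
          rw [mem_filter, mem_filter, mem_product, hA, hB]
          exact ⟨⟨⟨hv.2.2.1, hz3⟩, hv.2.2.2, hv.1⟩, Or.inr rfl⟩
      have h3 : (univ.filter fun y => 2 ≤ G.dist x y ∧ F x y = z) = ∅ := by
        rw [filter_eq_empty_iff]
        rintro y _ ⟨h, h'⟩
        have := hd1 y h
        rw [h'] at this
        omega
      have h4 : par x z ∈ univ.filter fun v => (G.dist x v = 2 ∧ G.Adj v z) := by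
        rw [mem_filter]
        exact ⟨mem_univ _, (hpar x z hz3).2.2, (hpar x z hz3).2.1⟩
      have h5 := card_pos.2 ⟨_, h4⟩
      rw [h1, h2, h3, card_empty, add_zero, card_singleton, card_erase_of_mem h4]
      simp only [I, hxz, hz3, if_false]
      rw [if_neg (by omega), if_neg (by omega)]
      omega
  refine ⟨q, fun x y hxy => hq1 x y hxy, ?_⟩
  by_cases hV : IsEmpty V
  · exact ⟨0, fun v => (hV.false v).elim⟩
  rw [not_isEmpty_iff] at hV
  obtain ⟨z0⟩ := hV
  refine ⟨∑ x, I x z0 + k, fun z => ?_⟩
  rw [Toggle.load_eq_sum, sum_congr rfl fun x _ => hcount x z, sum_add_distrib, hFk,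
    hconst I hI z0 z]

end Pool.Agent.UPS2
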