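import Mathlib

/-!
# LP vertex lemma and L2 rounding (helper83, TT876)

* `lp_vertex`: conic Caratheodory (basic solutions).
* `lp_excess`: a fractional choice with coupling constraints in a space `W` can be changed so that
  the total excess is at most `finrank W`.
* `l2_round`: rounding by conditional expectations in an inner product space.
* `var_le`: bound of the variance by the excess.
-/

set_option autoImplicit false

open Finset

namespace Pool.Agent.UPS2

/-- Conic Caratheodory: basic solutions of linear systems. -/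
theorem lp_vertex {J W : Type*} [Fintype J] [AddCommGroup W] [Module ℝ W]
    (c : J → W) (x : J → ℝ) (hx : ∀ j, 0 ≤ x j) :
    ∃ y : J → ℝ, (∀ j, 0 ≤ y j) ∧ (∀ j, x j = 0 → y j = 0) ∧
      (∑ j, y j • c j = ∑ j, x j • c j) ∧ LinearIndepOn ℝ c {j | y j ≠ 0} := by
  classical
  let S : Set (J → ℝ) := {y | (∀ j, 0 ≤ y j) ∧ (∀ j, x j = 0 → y j = 0) ∧
      (∑ j, y j • c j = ∑ j, x j • c j)}
  have hS : x ∈ S := ⟨hx, fun _ h => h, rfl⟩
  let supp : (J → ℝ) → ℕ := fun y => (univ.filter fun j => y j ≠ 0).card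
  obtain ⟨y, hyS, hymin⟩ : ∃ y ∈ S, ∀ z ∈ S, supp y ≤ supp z := by
    have hne : (supp '' S).Nonempty := ⟨supp x, x, hS, rfl⟩
    obtain ⟨y, hy, hy'⟩ := Nat.sInf_mem hne
    refine ⟨y, hy, fun z hz => ?_⟩
    rw [hy']
    exact Nat.sInf_le ⟨z, hz, rfl⟩
  obtain ⟨hy0, hyx, hysum⟩ := hyS
  refine ⟨y, hy0, hyx, hysum, ?_⟩
  by_contra hdep
  -- a dependency on the support, with a positive coefficient
  have hdep1 : ∃ g : J → ℝ, (∀ j, y j = 0 → g j = 0) ∧ (∑ j, g j • c j = 0) ∧ ∃ j, 0 < g j := by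
    have hfin : (({j | y j ≠ 0} : Set J)) = ((univ.filter fun j => y j ≠ 0 : Finset J) : Set J) := by
      ext j; simp
    rw [hfin, not_linearIndepOn_finset_iff] at hdep
    obtain ⟨g, hg, i, hi, hgi⟩ := hdep
    have key : ∀ g' : J → ℝ, (∑ j ∈ univ.filter (fun j => y j ≠ 0), g' j • c j = 0) →
        (∑ j, (if y j = 0 then 0 else g' j) • c j = 0) := by
      intro g' hg'
      rw [← hg', sum_filter]
      refine sum_congr rfl fun j _ => ?_
      by_cases h : y j = 0 <;> simp [h]
    have hi' : y i ≠ 0 := by simpa using hi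
    rcases lt_or_gt_of_ne hgi with h | h
    · refine ⟨fun j => if y j = 0 then 0 else -g j, fun j hj => by simp [hj], key _ ?_,
        i, by simp [hi']; exact h⟩
      simp only [neg_smul, sum_neg_distrib, hg, neg_zero]
    · exact ⟨fun j => if y j = 0 then 0 else g j, fun j hj => by simp [hj], key _ hg,
        i, by simp [hi']; exact h⟩
  obtain ⟨g, hg0, hgsum, j0, hj0⟩ := hdep1
  -- the largest step
  obtain ⟨i, hi, himin⟩ := (univ.filter fun j => 0 < g j).exists_min_image (fun j => y j / g j)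
    ⟨j0, by simp [hj0]⟩
  have hgi : 0 < g i := by simpa using hi
  have hyi : 0 < y i := lt_of_le_of_ne (hy0 i) fun h => by
    rw [hg0 i h.symm] at hgi; exact lt_irrefl _ hgi
  set t : ℝ := y i / g i with ht
  have ht0 : 0 < t := div_pos hyi hgi
  have hz : (fun j => y j - t * g j) ∈ S := by
    refine ⟨fun j => ?_, fun j hj => ?_, ?_⟩
    · by_cases h : 0 < g j
      · have := himin j (by simp [h])
        have h2 : t ≤ y j / g j := this
        rw [le_div_iff₀ h] at h2
        linarith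
      · have : t * g j ≤ 0 := mul_nonpos_of_nonneg_of_nonpos ht0.le (not_lt.1 h)
        linarith [hy0 j]
    · have h1 := hyx j hj
      simp [h1, hg0 j h1]
    · have : ∑ j, (y j - t * g j) • c j = ∑ j, y j • c j - t • ∑ j, g j • c j := by
        rw [smul_sum, ← sum_sub_distrib]
        refine sum_congr rfl fun j _ => ?_
        rw [sub_smul, mul_smul]
      rw [this, hgsum, smul_zero, sub_zero, hysum]
  have hlt : supp (fun j => y j - t * g j) < supp y := by
    refine card_lt_card ?_
    rw [ssubset_iff_of_subset]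
    · refine ⟨i, by simp [hyi.ne'], ?_⟩
      simp only [mem_filter, mem_univ, true_and, not_not]
      rw [ht, div_mul_cancel₀ _ hgi.ne', sub_self]
    · intro j hj
      simp only [mem_filter, mem_univ, true_and] at hj ⊢
      intro h
      exact hj (by simp [h, hg0 j h])
  exact absurd (hymin _ hz) (not_le.2 hlt)

/-- A basic solution has at most `finrank W` positive variables. -/
theorem lp_vertex_card {J W : Type*} [Fintype J] [AddCommGroup W] [Module ℝ W]
    [FiniteDimensional ℝ W] (c : J → W) (x : J → ℝ) (hx : ∀ j, 0 ≤ x j) :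
    ∃ y : J → ℝ, (∀ j, 0 ≤ y j) ∧ (∀ j, x j = 0 → y j = 0) ∧
      (∑ j, y j • c j = ∑ j, x j • c j) ∧
      (univ.filter fun j => y j ≠ 0).card ≤ Module.finrank ℝ W := by
  classical
  obtain ⟨y, h0, h1, h2, h3⟩ := lp_vertex c x hx
  refine ⟨y, h0, h1, h2, ?_⟩
  have := LinearIndependent.fintype_card_le_finrank (R := ℝ) (b := fun j : {j | y j ≠ 0} => c j) h3
  rwa [Fintype.card_subtype] at this

/-- Basic solutions of a system whose rows are indexed by `R` (every feasible solution has a positive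
variable assigned to every row) with coupling constraints in `W`: the total excess is at most
`finrank W`. -/
theorem lp_excess {J R W : Type*} [Fintype J] [Fintype R] [DecidableEq R] [AddCommGroup W]
    [Module ℝ W] [FiniteDimensional ℝ W] (ρ : J → R) (r : J → R → ℝ) (a : J → W) (x : J → ℝ)
    (hx : ∀ j, 0 ≤ x j)
    (hrow : ∀ y : J → ℝ, (∀ j, 0 ≤ y j) → (∀ i, ∑ j, y j * r j i = ∑ j, x j * r j i) →
      ∀ i, ∃ j, ρ j = i ∧ y j ≠ 0) :
    ∃ y : J → ℝ, (∀ j, 0 ≤ y j) ∧ (∀ j, x j = 0 → y j = 0) ∧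
      (∀ i, ∑ j, y j * r j i = ∑ j, x j * r j i) ∧ (∑ j, y j • a j = ∑ j, x j • a j) ∧
      ∑ i, ((univ.filter fun j => ρ j = i ∧ y j ≠ 0).card - 1) ≤ Module.finrank ℝ W := by
  classical
  obtain ⟨y, h0, h1, h2, h3⟩ := lp_vertex_card (fun j => ((r j, a j) : (R → ℝ) × W)) x hx
  have h2a : ∀ i, ∑ j, y j * r j i = ∑ j, x j * r j i := by
    intro i
    have := congrFun (congrArg Prod.fst h2) i
    simpa [Prod.fst_sum, Finset.sum_apply] using this
  have h2b : ∑ j, y j • a j = ∑ j, x j • a j := by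
    have := congrArg Prod.snd h2
    simpa [Prod.snd_sum] using this
  refine ⟨y, h0, h1, h2a, h2b, ?_⟩
  have hpos : ∀ i, 1 ≤ (univ.filter fun j => ρ j = i ∧ y j ≠ 0).card := by
    intro i
    obtain ⟨j, hj⟩ := hrow y h0 h2a i
    exact card_pos.2 ⟨j, by simp [hj]⟩
  have hsum : ∑ i, (univ.filter fun j => ρ j = i ∧ y j ≠ 0).card =
      (univ.filter fun j => y j ≠ 0).card := by
    rw [card_eq_sum_card_fiberwise (f := ρ) (t := univ) (fun _ _ => by simp)]
    refine sum_congr rfl fun i _ => ?_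
    congr 1
    ext j
    simp only [mem_filter, mem_univ, true_and]
    tauto
  have hfr : Module.finrank ℝ ((R → ℝ) × W) = Fintype.card R + Module.finrank ℝ W := by
    rw [Module.finrank_prod, Module.finrank_fintype_fun_eq_card]
  rw [hfr] at h3
  have h4 : ∑ i, ((univ.filter fun j => ρ j = i ∧ y j ≠ 0).card - 1) + Fintype.card R =
      (univ.filter fun j => y j ≠ 0).card := by
    rw [← hsum, ← card_univ (α := R), card_eq_sum_ones, ← sum_add_distrib]
    exact sum_congr rfl fun i _ => Nat.sub_add_cancel (hpos i)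
  omega

section L2

variable {E : Type*} [NormedAddCommGroup E] [InnerProductSpace ℝ E]

/-- The mean of `b` with respect to the weights `w`. -/
noncomputable def mean {O : Type*} [Fintype O] (w : O → ℝ) (b : O → E) : E := ∑ o, w o • b o

/-- The variance of `b` with respect to the weights `w`. -/
noncomputable def vari {O : Type*} [Fintype O] (w : O → ℝ) (b : O → E) : ℝ :=
  ∑ o, w o * ‖b o - mean w b‖ ^ 2

lemma exists_option {O : Type*} [Fintype O] (w : O → ℝ) (hw : ∀ o, 0 ≤ w o)
    (hw1 : ∑ o, w o = 1) (b : O → E) (v : E) :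
    ∃ o, 0 < w o ∧ ‖v + (b o - mean w b)‖ ^ 2 ≤ ‖v‖ ^ 2 + vari w b := by
  classical
  by_contra hcon
  push Not at hcon
  have hex : ∃ o, 0 < w o := by
    by_contra h
    push Not at h
    have : ∑ o, w o ≤ 0 := sum_nonpos fun o _ => h o
    linarith
  obtain ⟨o1, ho1⟩ := hex
  have h1 : ∑ o, w o * (‖v‖ ^ 2 + vari w b) < ∑ o, w o * ‖v + (b o - mean w b)‖ ^ 2 := by
    refine sum_lt_sum (fun o _ => ?_) ⟨o1, mem_univ _, ?_⟩
    · rcases (hw o).lt_or_eq with h | h
      · exact mul_le_mul_of_nonneg_left (hcon o h).le (hw o)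
      · rw [← h]; simp
    · exact mul_lt_mul_of_pos_left (hcon o1 ho1) ho1
  have h2 : ∑ o, w o * ‖v + (b o - mean w b)‖ ^ 2 = ‖v‖ ^ 2 + vari w b := by
    have h3 : ∀ o, w o * ‖v + (b o - mean w b)‖ ^ 2 =
        w o * ‖v‖ ^ 2 + 2 * inner ℝ v (w o • (b o - mean w b)) + w o * ‖b o - mean w b‖ ^ 2 := by
      intro o
      rw [norm_add_sq_real, inner_smul_right]
      ring
    simp only [h3, sum_add_distrib, ← sum_mul, hw1, one_mul, ← mul_sum, ← inner_sum]
    have h4 : ∑ o, w o • (b o - mean w b) = 0 := by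
      simp only [smul_sub, sum_sub_distrib, ← sum_smul, hw1, one_smul]
      rw [mean, sub_self]
    rw [h4, inner_zero_right, mul_zero, add_zero]
    rfl
  rw [h2, ← sum_mul, hw1, one_mul] at h1
  exact lt_irrefl _ h1

/-- L2 rounding by conditional expectations. -/
theorem l2_round {ι O : Type*} [Fintype O] [Nonempty O] (I : Finset ι) (w : ι → O → ℝ)
    (hw : ∀ i ∈ I, ∀ o, 0 ≤ w i o) (hw1 : ∀ i ∈ I, ∑ o, w i o = 1) (b : ι → O → E) (v0 : E) :
    ∃ c : ι → O, (∀ i ∈ I, 0 < w i (c i)) ∧
      ‖v0 + ∑ i ∈ I, (b i (c i) - mean (w i) (b i))‖ ^ 2 ≤ ‖v0‖ ^ 2 + ∑ i ∈ I, vari (w i) (b i) := by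
  classical
  induction I using Finset.induction_on with
  | empty => exact ⟨fun _ => Classical.arbitrary O, by simp, by simp⟩
  | insert i I hi ih =>
    obtain ⟨c, hc1, hc2⟩ := ih (fun j hj => hw j (mem_insert_of_mem hj))
      (fun j hj => hw1 j (mem_insert_of_mem hj))
    obtain ⟨o, ho1, ho2⟩ := exists_option (w i) (hw i (mem_insert_self _ _))
      (hw1 i (mem_insert_self _ _)) (b i) (v0 + ∑ i ∈ I, (b i (c i) - mean (w i) (b i)))
    refine ⟨Function.update c i o, fun j hj => ?_, ?_⟩
    · rcases mem_insert.1 hj with h | h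
      · subst h; simpa using ho1
      · have : j ≠ i := fun h' => hi (h' ▸ h)
        rw [Function.update_of_ne this]
        exact hc1 j h
    · have h1 : ∑ j ∈ I, (b j (Function.update c i o j) - mean (w j) (b j)) =
          ∑ j ∈ I, (b j (c j) - mean (w j) (b j)) := by
        refine sum_congr rfl fun j hj => ?_
        have : j ≠ i := fun h' => hi (h' ▸ hj)
        rw [Function.update_of_ne this]
      rw [sum_insert hi, sum_insert hi, h1, Function.update_self]
      have h2 : v0 + (b i o - mean (w i) (b i) + ∑ j ∈ I, (b j (c j) - mean (w j) (b j))) =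
          v0 + ∑ j ∈ I, (b j (c j) - mean (w j) (b j)) + (b i o - mean (w i) (b i)) := by abel
      rw [h2]
      linarith

lemma vari_eq {O : Type*} [Fintype O] (w : O → ℝ) (hw1 : ∑ o, w o = 1) (b : O → E) :
    vari w b = (∑ o, ∑ o', w o * w o' * ‖b o - b o'‖ ^ 2) / 2 := by
  have hm : ∀ o, (inner ℝ (b o) (mean w b) : ℝ) = ∑ o', w o' * inner ℝ (b o) (b o') := by
    intro o
    rw [mean, inner_sum]
    exact sum_congr rfl fun o' _ => by rw [inner_smul_right]
  have hmm : ‖mean w b‖ ^ 2 = ∑ o, ∑ o', w o * w o' * inner ℝ (b o) (b o') := by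
    rw [← real_inner_self_eq_norm_sq]
    nth_rewrite 1 [mean]
    rw [sum_inner]
    refine sum_congr rfl fun o _ => ?_
    rw [real_inner_smul_left, hm, mul_sum]
    exact sum_congr rfl fun o' _ => by ring
  have h1 : vari w b = ∑ o, w o * ‖b o‖ ^ 2 - ‖mean w b‖ ^ 2 := by
    unfold vari
    have : ∀ o, w o * ‖b o - mean w b‖ ^ 2 =
        w o * ‖b o‖ ^ 2 - 2 * ∑ o', w o * w o' * inner ℝ (b o) (b o') +
          w o * ‖mean w b‖ ^ 2 := by
      intro o
      rw [norm_sub_sq_real, hm]
      have : ∑ o', w o * w o' * (inner ℝ (b o) (b o') : ℝ) =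
          w o * ∑ o', w o' * inner ℝ (b o) (b o') := by
        rw [mul_sum]; exact sum_congr rfl fun o' _ => by ring
      rw [this]; ring
    simp only [this, sum_add_distrib, sum_sub_distrib, ← mul_sum, ← sum_mul, hw1, ← hmm]
    ring
  have h2 : ∑ o, ∑ o', w o * w o' * ‖b o - b o'‖ ^ 2 =
      2 * ∑ o, w o * ‖b o‖ ^ 2 - 2 * ‖mean w b‖ ^ 2 := by
    have : ∀ o o', w o * w o' * ‖b o - b o'‖ ^ 2 =
        w o * ‖b o‖ ^ 2 * w o' - 2 * (w o * w o' * inner ℝ (b o) (b o')) +
          w o * (w o' * ‖b o'‖ ^ 2) := by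
      intro o o'
      rw [norm_sub_sq_real]; ring
    simp only [this, sum_add_distrib, sum_sub_distrib, ← mul_sum, ← sum_mul, hw1, ← hmm]
    ring
  rw [h1, h2]; ring

/-- The variance is at most `(k - 1) M / 4`, where `k` is the number of options with positive
weight and `M` bounds the squared distances between them. -/
theorem vari_le {O : Type*} [Fintype O] (w : O → ℝ) (hw : ∀ o, 0 ≤ w o) (hw1 : ∑ o, w o = 1)
    (b : O → E) (M : ℝ) (hM : 0 ≤ M)
    (h : ∀ o o', w o ≠ 0 → w o' ≠ 0 → o ≠ o' → ‖b o - b o'‖ ^ 2 ≤ M) :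
    vari w b ≤ ((univ.filter fun o => w o ≠ 0).card - 1 : ℕ) * M / 4 := by
  classical
  set k := (univ.filter fun o => w o ≠ 0).card with hk
  have hsupp : ∑ o ∈ univ.filter (fun o => w o ≠ 0), w o = 1 := by
    rw [← hw1, sum_filter]
    exact sum_congr rfl fun o _ => by by_cases h : w o = 0 <;> simp [h]
  have hkpos : 1 ≤ k := by
    by_contra hk0
    have : (univ.filter fun o => w o ≠ 0) = ∅ := card_eq_zero.1 (by omega)
    rw [this] at hsupp
    simp at hsupp
  have hcs : 1 ≤ (k : ℝ) * ∑ o, w o ^ 2 := by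
    have h1 := sq_sum_le_card_mul_sum_sq (s := univ.filter fun o => w o ≠ 0) (f := w)
    rw [hsupp, one_pow] at h1
    refine h1.trans (mul_le_mul_of_nonneg_left ?_ (by positivity))
    exact sum_le_sum_of_subset_of_nonneg (filter_subset _ _) fun o _ _ => sq_nonneg _
  have hle : ∑ o, ∑ o', w o * w o' * ‖b o - b o'‖ ^ 2 ≤ M * (1 - ∑ o, w o ^ 2) := by
    have h2 : ∀ o, ∑ o', w o * w o' * ‖b o - b o'‖ ^ 2 ≤ M * (w o - w o ^ 2) := by
      intro o
      have h3 : ∀ o', w o * w o' * ‖b o - b o'‖ ^ 2 ≤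
          M * (w o * w o') - (if o' = o then M * (w o * w o') else 0) := by
        intro o'
        by_cases hoo : o' = o
        · subst hoo; simp
        · rw [if_neg hoo, sub_zero]
          by_cases ho : w o = 0
          · simp [ho]
          · by_cases ho' : w o' = 0
            · simp [ho']
            · have := h o o' ho ho' (Ne.symm hoo)
              rw [mul_comm M]
              exact mul_le_mul_of_nonneg_left this (mul_nonneg (hw o) (hw o'))
      refine (sum_le_sum fun o' _ => h3 o').trans ?_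
      rw [sum_sub_distrib, sum_ite_eq' univ o, if_pos (mem_univ _), ← mul_sum, ← mul_sum, hw1]
      apply le_of_eq; ring
    refine (sum_le_sum fun o _ => h2 o).trans ?_
    rw [← mul_sum, sum_sub_distrib, hw1]
  rw [vari_eq w hw1]
  have hk1 : ((k - 1 : ℕ) : ℝ) = (k : ℝ) - 1 := by
    rw [Nat.cast_sub hkpos, Nat.cast_one]
  rw [hk1]
  have hfin : 1 - ∑ o, w o ^ 2 ≤ ((k : ℝ) - 1) / 2 := by
    have hk' : (1 : ℝ) ≤ k := by exact_mod_cast hkpos
    rcases eq_or_lt_of_le hkpos with h1 | h1
    · rw [← h1] at hcs ⊢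
      push_cast at hcs ⊢
      linarith
    · have hk2 : (2 : ℝ) ≤ k := by exact_mod_cast h1
      have h5 : 1 / (k : ℝ) ≤ ∑ o, w o ^ 2 := by
        rw [div_le_iff₀ (by linarith)]
        linarith
      have h6 : 1 - 1 / (k : ℝ) ≤ ((k : ℝ) - 1) / 2 := by
        have : 1 - 1 / (k : ℝ) = ((k : ℝ) - 1) / k := by field_simp
        rw [this]
        exact div_le_div_of_nonneg_left (by linarith) (by norm_num) hk2
      linarith
  have := mul_le_mul_of_nonneg_left hfin hM
  linarith

end L2

end Pool.Agent.UPS2
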